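import Pool.Agent.N211.TP2.Defs
import Pool.Agent.N211.BT.TQ2
import Pool.Agent.R920.MT.Main

/-!
# Coordinate maps and the Galois action
-/

set_option linter.unusedSectionVars false

open CategoryTheory AlgebraicGeometry

universe u

namespace Pool.Agent.N211.TP2

open Module
open Pool.Agent.H914 Pool.Agent.H914.VarClass Pool.Agent.H914.VarClass.Obj
  Pool.Agent.H914.WeilCohomology
open Pool.Agent.Y121.AHS
open Pool.Agent.Y133.Half (pw prj prj_zero prj_castSucc prj_last pfst psnd wb wb_zero wb_succ)
open Pool.Agent.N996.BP (IsCoordinateMap isCoordinateMap_iff)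
open Pool.Agent.N996.BP.Geo (IsCd)
open Pool.Agent.N211.BT (mapB mapB_apply mulB mulB_apply bL bL_apply emL_map emL_mul emL_add
  emL_smul phi sum_phi wb_snoc')

variable {k : Type u} [Field k] {𝒱 : VarClass k} {ops : CycleOps 𝒱}

section Maps

variable {W : WeilCohomology.{u, 0} ops} {X Y Z : 𝒱.Obj} {E : Type} [Field E] [Algebra W.K E]

lemma mapL_id (x : HL W E X) : mapL (𝟙 X) x = x := by
  have h : mapB (W := W) E (𝟙 X) = LinearMap.id := by
    refine (bL E (Module.finBasis W.K (W.H X))).ext fun i => ?_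
    rw [bL_apply, mapB_apply, ← emL_map, W.map_id, LinearMap.id_apply]
  exact LinearMap.congr_fun h x

lemma mapL_comp (f : X ⟶ Y) (g : Y ⟶ Z) (x : HL W E Z) : mapL (f ≫ g) x = mapL f (mapL g x) := by
  have h : mapB (W := W) E (f ≫ g) = mapB E f ∘ₗ mapB E g := by
    refine (bL E (Module.finBasis W.K (W.H Z))).ext fun i => ?_
    rw [bL_apply, LinearMap.comp_apply, mapB_apply, mapB_apply, mapB_apply, ← emL_map, ← emL_map,
      ← emL_map, W.map_comp]
  exact LinearMap.congr_fun h x

lemma mapL_mul (f : X ⟶ Y) (x y : HL W E Y) : mapL f (mulL x y) = mulL (mapL f x) (mapL f y) := by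
  have h : (mulB W E Y).compr₂ (mapB E f) =
      (mulB W E X).compl₁₂ (mapB E f) (mapB E f) := by
    refine (bL E (Module.finBasis W.K (W.H Y))).ext fun i =>
      (bL E (Module.finBasis W.K (W.H Y))).ext fun j => ?_
    rw [LinearMap.compr₂_apply, LinearMap.compl₁₂_apply, bL_apply, bL_apply, mulB_apply,
      mulB_apply, mapB_apply, mapB_apply, mapB_apply, ← emL_mul, ← emL_map, ← emL_map, ← emL_map,
      ← emL_mul, map_mul]
  exact LinearMap.congr_fun (LinearMap.congr_fun h x) y

end Maps

section Act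

variable {W : WeilCohomology.{u, 0} ops} {X : 𝒱.Obj} {E : Type} [Field E] [Algebra W.K E]
  {r : ∀ n, Module.End E (HL W E (pw X n))}
  (hmul : ∀ n x y, r n (mulL x y) = mulL (r n x) (r n y))
  (hfst : ∀ n (x : HL W E (pw X n)), r (n + 1) (mapL (pfst X n) x) = mapL (pfst X n) (r n x))
  (hsnd : ∀ n (x : HL W E X), r (n + 1) (mapL (psnd X n) x) =
    mapL (psnd X n) (show HL W E X from r 0 x))

include hfst hsnd in
lemma act_prj (m : ℕ) (j : Fin (m + 1)) (x : HL W E X) :
    r m (mapL (prj X m j) x) = mapL (prj X m j) (show HL W E X from r 0 x) := by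
  induction m with
  | zero =>
    rw [prj_zero]
    exact (congrArg (r 0) (mapL_id x)).trans (mapL_id (r 0 x)).symm
  | succ m ih =>
    refine Fin.lastCases ?_ (fun j => ?_) j
    · rw [prj_last]
      exact hsnd m x
    · rw [prj_castSucc, mapL_comp, mapL_comp]
      exact (hfst m _).trans (congrArg (fun y => Y121.AHS.mapL (pfst X m) y) (ih j))

include hmul hfst hsnd in
lemma act_coord {n m : ℕ} (f : pw X m ⟶ pw X n) (hf : IsCd f) (x : HL W E (pw X n)) :
    r m (mapL f x) = mapL f (r n x) := by
  induction n with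
  | zero =>
    obtain ⟨j, hj⟩ := hf 0
    rw [prj_zero] at hj
    have h1 : f = prj X m j := (Category.comp_id f).symm.trans hj
    rw [h1]
    exact act_prj hfst hsnd m j x
  | succ n ih =>
    have h0 : IsCd (f ≫ pfst X n) := fun i => by
      obtain ⟨j, hj⟩ := hf i.castSucc
      refine ⟨j, ?_⟩
      rw [← hj, prj_castSucc, Category.assoc]
    obtain ⟨j, hj⟩ := hf (Fin.last _)
    rw [prj_last] at hj
    have h2 : ∀ (a : HL W E (pw X n)) (b : HL W E X),
        r m (mapL f (mulL (mapL (pfst X n) a) (mapL (psnd X n) b))) =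
          mapL f (r (n + 1) (mulL (mapL (pfst X n) a) (mapL (psnd X n) b))) := by
      intro a b
      have h3 : mapL f (mapL (pfst X n) a) = mapL (f ≫ pfst X n) a := (mapL_comp _ _ _).symm
      have h4 : mapL f (mapL (psnd X n) b) = mapL (prj X m j) b := by
        rw [← hj]
        exact (mapL_comp _ _ _).symm
      have h5 : mapL f (mapL (pfst X n) (r n a)) = mapL (f ≫ pfst X n) (r n a) :=
        (mapL_comp _ _ _).symm
      have h6 : mapL f (mapL (psnd X n) (show HL W E X from r 0 b)) =
          mapL (prj X m j) (show HL W E X from r 0 b) := by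
        rw [← hj]
        exact (mapL_comp _ _ _).symm
      rw [mapL_mul, h3, h4, hmul, ih _ h0, act_prj hfst hsnd m j b, hmul, hfst, hsnd, mapL_mul,
        h5, h6]
    have h3 : (r m) ∘ₗ (mapB E f) = (mapB E f) ∘ₗ (r (n + 1)) := by
      let e := Module.finBasis W.K (W.H X)
      refine (bL E (wb e (n + 1))).ext fun w => ?_
      rw [bL_apply]
      have h4 : emL W E (wb e (n + 1) w) = mulL (mapL (pfst X n) (emL W E (wb e n fun i =>
          w i.castSucc))) (mapL (psnd X n) (emL W E (e (w (Fin.last _))))) := by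
        rw [wb_succ, emL_mul, emL_map, emL_map]
      rw [h4]
      exact h2 _ _
    exact LinearMap.congr_fun h3 x

end Act

end Pool.Agent.N211.TP2
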