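import Pool.Agent.N996.BP.Ext2
import Pool.Agent.Y121.AHS.Defs
import Pool.Agent.Y133.Half.PwDefs

/-!
# Motivated classes and Galois representations on the powers of a variety: definitions

In the intended use `F` is a finitely generated subfield of the field of complex numbers, `k` is its
algebraic closure, the varieties are the smooth projective ones over `k`, `T` is the theory
`X ↦ H(X, ℚ)` given by the embedding of `k`, the variety `X` is defined over `F`, `E` is the field
of `ℓ`-adic numbers and `Γ` is the Galois group of `k` over `F`. By the comparison theorem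
`PowH T E X n` is the `ℓ`-adic cohomology of `X ^ (n + 1)`. As the Tate twists are suppressed
there is a character `χ`, the inverse of the cyclotomic character.
-/

open CategoryTheory AlgebraicGeometry

universe u

namespace Pool.Agent.N211.TP2

section Short

variable {K A B : Type} [Field K] [Ring A] [Algebra K A] [Ring B] [Algebra K B]

/-- The element `f a`. -/
def lin (f : A →ₗ[K] B) (a : A) : B := f a

/-- The element `f a`. -/
def hom (f : A →ₐ[K] B) (a : A) : B := f a

/-- The element `r a + b`. -/
def comb (r : K) (a b : A) : A := r • a + b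

/-- The element `a b`. -/
def prd (a b : A) : A := a * b

/-- The element `w ^ m * x`. -/
def powMul (w : A) (m : ℕ) (x : A) : A := w ^ m * x

/-- The element `a` lies in `V`. -/
def In (V : Submodule K A) (a : A) : Prop := a ∈ V

/-- The element `f z`. -/
def add {C : Type*} [AddCommGroup C] (f : C →+ A) (z : C) : A := f z

variable (K A) in
/-- The bilinear forms with values in `K`. -/
abbrev Bil : Type := A →ₗ[K] A →ₗ[K] K

open Pool.Agent.Y121.AHS in
/-- The extension of a bilinear form to coefficients in `L`, `(s ⊗ a, t ⊗ b) ↦ s t ψ(a, b)`. -/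
noncomputable def extBil (L : Type) [Field L] [Algebra K L] (ψ : Bil K A) (x y : Ext K L A) : L :=
  (LinearMap.BilinForm.baseChange L ψ : LinearMap.BilinForm L (TensorProduct K L A))
    (show TensorProduct K L A from x) (show TensorProduct K L A from y)

end Short

/-- The space `V`, the sum of the subspaces `V^(p,q)` (`typ p q x` means that `x` is in `V^(p,q)`),
has a Hodge structure with polarisation `form`: `V^(p,q) = 0` unless `p` and `q` are between `0` and
`d`, the complex conjugation `conj` maps `V^(p,q)` to `V^(q,p)`, the form vanishes on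
`V^(p,q) × V^(r,s)` unless `(r, s) = (q, p)`, and `i ^ (p - q) form(x, x̄)` is a positive real number
for all nonzero `x` in `V^(p,q)`. -/
structure IsPolarisedBy {V : Type} [AddCommGroup V] (typ : ℤ → ℤ → V → Prop) (conj : V → V)
    (form : V → V → ℂ) (d : ℕ) : Prop where
  symm : ∀ p q x, typ p q x → typ q p (conj x)
  orth : ∀ p q r s x y, typ p q x → typ r s y → r ≠ q ∨ s ≠ p → form x y = 0
  pos : ∀ p q x, typ p q x → x ≠ 0 → (0 ≤ p ∧ p ≤ d ∧ 0 ≤ q ∧ q ≤ d) ∧
    ∃ r : ℝ, 0 < r ∧ Complex.I ^ (p - q) * form x (conj x) = r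

/-- The operations on the cohomology `H n` of the powers `X ^ (n + 1)` of a variety. -/
structure Ops (E : Type) (H : ℕ → Type) where
  /-- the sum -/
  add : ∀ n, H n → H n → H n
  /-- the product with a scalar -/
  smul : ∀ n, E → H n → H n
  /-- the classes of degree `i` -/
  deg : ∀ n, ℕ → H n → Prop
  /-- the product -/
  mul : ∀ n, H n → H n → H n
  /-- the trace -/
  tr : ∀ n, H n → E
  /-- the dimension of `X ^ (n + 1)` -/
  dim : ℕ → ℕ
  /-- the pull-back along the projection `X ^ (n + 2) → X ^ (n + 1)` which forgets the last factor -/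
  fst : ∀ n, H n → H (n + 1)
  /-- the pull-back along the last projection `X ^ (n + 2) → X` -/
  snd : ∀ n, H 0 → H (n + 1)
  /-- a bilinear form on the cohomology of `X` -/
  form : H 0 → H 0 → E
  /-- the sum of the Betti numbers of `X` -/
  betti : ℕ

section Generic

variable {E : Type} [Field E] {H : ℕ → Type} {Γ : Type} [Group Γ] (O : Ops E H) (χ : Γ → E)
  (ρ : ∀ n, Γ → H n → H n)

/-- The maps `ρ n` are representations of `Γ`, and `χ` is a character. The action respects the
products, the degrees and the pull-backs along the projections, and an element `g` multiplies the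
trace by `χ g ^ dim`. On `H(X)` it is compatible with the form: `ψ(g x, g y) = χ g ^ i ψ(x, y)` for
`x` of degree `i`. -/
structure IsGalois : Prop where
  one : χ 1 = 1 ∧ ∀ n x, ρ n 1 x = x
  comp : ∀ g h, χ (g * h) = χ g * χ h ∧ ∀ n x, ρ n (g * h) x = ρ n g (ρ n h x)
  add : ∀ n g x y, ρ n g (O.add n x y) = O.add n (ρ n g x) (ρ n g y)
  smul : ∀ n g c x, ρ n g (O.smul n c x) = O.smul n c (ρ n g x)
  mul : ∀ n g x y, ρ n g (O.mul n x y) = O.mul n (ρ n g x) (ρ n g y)
  deg : ∀ n g i x, O.deg n i x → O.deg n i (ρ n g x)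
  fst : ∀ n g x, ρ (n + 1) g (O.fst n x) = O.fst n (ρ n g x)
  snd : ∀ n g x, ρ (n + 1) g (O.snd n x) = O.snd n (ρ 0 g x)
  tr : ∀ n g x, O.tr n (ρ n g x) = χ g ^ O.dim n * O.tr n x
  form : ∀ g i x y, O.deg 0 i x → O.form (ρ 0 g x) (ρ 0 g y) = χ g ^ i * O.form x y

/-- The element `f` has the properties of a geometric Frobenius element at a place with residue
field `𝔽_p` where `X` has good reduction: `χ f = p`, and on `H^i(X)` it satisfies a monic equation
`Q(f) = 0` with integral coefficients, of degree at most the total Betti number, all of whose complex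
roots have absolute value `p ^ (i / 2)`. (By Deligne's theorem the characteristic polynomial is such
a polynomial. By Poincaré duality `Q(f) x = 0` if `tr(Q(f) x · y) = 0` for all `y`.) -/
def IsFrobenius (p : ℕ) (f : Γ) : Prop :=
  p.Prime ∧ χ f = p ∧ ∀ i : ℕ, ∃ Q : Polynomial ℤ, Q.Monic ∧ Q.natDegree ≤ O.betti ∧
    (∀ z : ℂ, Polynomial.aeval z Q = 0 → ‖z‖ ^ 2 = (p : ℝ) ^ i) ∧ ∀ x y, O.deg 0 i x →
      ∑ m ∈ Finset.range (Q.natDegree + 1),
        (Q.coeff m : E) * O.tr 0 (O.mul 0 (ρ 0 (f ^ m) x) y) = 0

/-- The action on `H(X)` is continuous (for the matrix coefficients given by Poincaré duality) and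
the Frobenius elements are dense (Chebotarev; the places of degree one suffice). -/
structure IsArithmetic [TopologicalSpace Γ] [TopologicalSpace E] : Prop where
  cont : ∀ x y, Continuous fun g => O.tr 0 (O.mul 0 (ρ 0 g x) y)
  cont_χ : Continuous χ
  dense : Dense {f | ∃ p, IsFrobenius O χ ρ p f}

/-- The class `x` is invariant, after the `j`-th Tate twist, under an open subgroup of finite
index. -/
def IsTate [TopologicalSpace Γ] {n : ℕ} (j : ℕ) (x : H n) : Prop :=
  ∃ Δ : Subgroup Γ, Δ.FiniteIndex ∧ IsOpen (Δ : Set Γ) ∧ ∀ g ∈ Δ, ρ n g x = O.smul n (χ g ^ j) x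

variable [∀ n, AddCommGroup (H n)] [∀ n, Module E (H n)]

/-- The Tate classes on `X ^ (n + 1)` are linear combinations with coefficients in `E` of the
classes in `M`. -/
def TateFrom [TopologicalSpace Γ] (M : ∀ n : ℕ, ℕ → Set (H n)) (n : ℕ) : Prop :=
  ∀ j x, O.deg n (2 * j) x → IsTate O χ ρ j x → x ∈ Submodule.span E (M n j)

/-- The representation of the subgroup `Δ` on the space of the classes of degree `i` on
`X ^ (n + 1)` is semisimple: every `Δ`-stable subspace has a `Δ`-stable complement. -/
def IsSemisimple (Δ : Subgroup Γ) (n i : ℕ) : Prop :=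
  ∀ U : Submodule E (H n), (∀ x ∈ U, O.deg n i x) → (∀ g ∈ Δ, ∀ x ∈ U, ρ n g x ∈ U) →
    ∃ U' : Submodule E (H n), (∀ g ∈ Δ, ∀ x ∈ U', ρ n g x ∈ U') ∧ (∀ x ∈ U, x ∈ U' → x = 0) ∧
      ∀ x, O.deg n i x ↔ ∃ y ∈ U, ∃ z ∈ U', x = y + z

end Generic

section Module

variable {E V : Type} [Field E] [AddCommGroup V] [Module E V]

/-- The sum. -/
def vadd (x y : V) : V := x + y

/-- The product with a scalar. -/
def vsmul (c : E) (x : V) : V := c • x

/-- The vector `x` lies in `U`. -/
def vmem (U : Submodule E V) (x : V) : Prop := x ∈ U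

end Module

section Varieties

open Pool.Agent.H914 Pool.Agent.H914.VarClass Pool.Agent.H914.VarClass.Obj
  Pool.Agent.H914.WeilCohomology
open Pool.Agent.Y121.AHS Pool.Agent.N996.BP
open Pool.Agent.Y133.Half (pw)

variable {k : Type u} [Field k] {𝒱 : VarClass k} {ops : CycleOps 𝒱}

/-- The class of the cycle `z`. -/
noncomputable def clc (W : WeilCohomology.{u, 0} ops) {X : 𝒱.Obj} (z : X.Cycles) : W.H X :=
  add (W.cl X) z

/-- The motivated classes of codimension `j` on `X` (André): the smallest system of classes which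
contains the classes of the algebraic cycles, is stable under linear combinations, products,
pull-backs and push-forwards, and contains the class `x` of degree `2 j` on `X` if it contains
`L ^ (dim X - 2 j) x`, where `L` is the product with the class of a divisor `D` satisfying the hard
Lefschetz theorem. -/
inductive IsMotivated (W : WeilCohomology.{u, 0} ops) : ∀ X : 𝒱.Obj, ℕ → W.H X → Prop
  | cyc {X : 𝒱.Obj} {j : ℕ} {z : X.Cycles} : X.IsCyc j z → IsMotivated W X j (clc W z)
  | comb {X : 𝒱.Obj} {j : ℕ} (r : W.K) {a b : W.H X} : IsMotivated W X j a →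
      IsMotivated W X j b → IsMotivated W X j (comb r a b)
  | mul {X : 𝒱.Obj} {i j : ℕ} {a b : W.H X} : IsMotivated W X i a → IsMotivated W X j b →
      IsMotivated W X (i + j) (prd a b)
  | pull {X Y : 𝒱.Obj} (f : X ⟶ Y) {j : ℕ} {a : W.H Y} : IsMotivated W Y j a →
      IsMotivated W X j (hom (W.map f) a)
  | push {X Y : 𝒱.Obj} (f : X ⟶ Y) {j l : ℕ} {a : W.H X} : l + X.dim = j + Y.dim →
      IsMotivated W X j a → IsMotivated W Y l (lin (W.push f) a)
  | lift {X : 𝒱.Obj} {D : X.Cycles} {j : ℕ} {x : W.H X} : X.IsCyc 1 D → HardLefschetz W X D →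
      2 * j ≤ X.dim → In (W.gr X (2 * j)) x →
      IsMotivated W X (X.dim - j) (powMul (clc W D) (X.dim - 2 * j) x) → IsMotivated W X j x

variable (T : HodgeTheory ops)

/-- The bilinear form `ψ` on `H(X)` is a polarisation of the Hodge structure. -/
def IsPolarisation (X : 𝒱.Obj) (ψ : Bil T.W.K (T.W.H X)) : Prop :=
  IsPolarisedBy (V := HL T.W ℂ X) (fun p q x => IsType T.pq p q x) (extConj T.rat)
    (extBil ℂ ψ) X.dim

/-- The Hodge classes on `X ^ (n + 1)` are motivated. -/
def HodgeMotivated (X : 𝒱.Obj) (n : ℕ) : Prop :=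
  ∀ j c, IsHodge T (pw X n) j c → IsMotivated T.W (pw X n) j c

variable (E : Type) [Field E] [Algebra T.W.K E] (X : 𝒱.Obj)

/-- The cohomology of `X ^ (n + 1)` with coefficients in `E`. -/
def PowH (n : ℕ) : Type := HL T.W E (pw X n)

noncomputable instance instAdd (n : ℕ) : AddCommGroup (PowH T E X n) := instAddHL T.W E (pw X n)

noncomputable instance instMod (n : ℕ) : Module E (PowH T E X n) := instModHL T.W E (pw X n)

/-- The motivated classes of codimension `j` on `X ^ (n + 1)`, as classes with coefficients in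
`E`. -/
def motClasses (n j : ℕ) : Set (PowH T E X n) :=
  {x | ∃ c, IsMotivated T.W (pw X n) j c ∧ x = emL T.W E c}

variable {X}

/-- The operations on the cohomology of the powers of `X`, with the form given by a rational
bilinear form `ψ` on `H(X)`. -/
noncomputable def cohOps (ψ : Bil T.W.K (T.W.H X)) : Ops E (PowH T E X) where
  add _ := vadd
  smul _ := vsmul
  deg n i := vmem (grL T.W E (pw X n) i)
  mul _ := mulL
  tr _ := trL
  dim n := (pw X n).dim
  fst n := mapL (Y := pw X n) (fst (pw X n) X)
  snd n := mapL (Y := X) (snd (pw X n) X)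
  form := extBil E ψ
  betti := Module.finrank T.W.K (T.W.H X)

end Varieties

/-- The explicit exponent. -/
def exponent (b : ℕ) : ℕ := (4 * b * b.factorial * (b ^ 2 + 1)) ^ (b ^ 2 + 1)

end Pool.Agent.N211.TP2
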