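import Pool.Agent.N211.TP2.Coord
import Pool.Agent.N211.BT.Op
import Pool.Agent.N996.BP.Fin1
import Pool.Agent.N996.BP.Main

/-!
# The bounded power theorem for the motivated Mumford-Tate conjecture
-/

set_option linter.unusedSectionVars false

open CategoryTheory AlgebraicGeometry

universe u

namespace Pool.Agent.N211.TP2

open Module
open Pool.Agent.H914 Pool.Agent.H914.VarClass Pool.Agent.H914.VarClass.Obj
  Pool.Agent.H914.WeilCohomology
open Pool.Agent.Y121.AHS
open Pool.Agent.Y121.AH (hodgePred)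
open Pool.Agent.Y133.Half (pw ClassPred pfst psnd exists_dual_class)
open Pool.Agent.N996.BP (isCoordinateMap_iff totalBetti)
open Pool.Agent.R920.MT (motPred)

variable {k : Type u} [Field k] {𝒱 : VarClass k} {ops : CycleOps 𝒱}

/-! ### Motivated classes -/

section Mot

variable {W : WeilCohomology.{u, 0} ops} {X : 𝒱.Obj}

lemma mot_iff {j : ℕ} {c : W.H X} : IsMotivated W X j c ↔ R920.MT.IsMotivated W X j c := by
  constructor
  · intro h
    induction h with
    | cyc hz => exact (motPred W).cl hz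
    | comb r _ _ ha hb => exact (motPred W).add ((motPred W).smul r ha) hb
    | mul _ _ ha hb => exact (motPred W).mul ha hb
    | pull f _ h => exact (motPred W).map f h
    | push f hl _ h => exact (motPred W).push f hl h
    | lift hD hL hj hx _ h => exact R920.MT.IsMotivated.lift hD hL hj hx h
  · intro h
    have h0 : ∀ (X : 𝒱.Obj) (j : ℕ), IsMotivated W X j 0 := by
      intro X j
      have h1 := IsMotivated.cyc (W := W) (SmVar.IsCyc.zero X.1 j)
      have h2 : clc W (X := X) 0 = 0 := map_zero (W.cl X)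
      rw [← h2]
      exact h1
    refine h (IsMotivated W) ⟨?_, ?_, ?_, ?_, ?_, ?_⟩
    · intro X j
      have hadd : ∀ a b : W.H X, IsMotivated W X j a → IsMotivated W X j b →
          IsMotivated W X j (a + b) := by
        intro a b ha hb
        have h1 := IsMotivated.comb (1 : W.K) ha hb
        rw [comb, one_smul] at h1
        exact h1
      have hsmul : ∀ (r : W.K) (a : W.H X), IsMotivated W X j a → IsMotivated W X j (r • a) := by
        intro r a ha
        have h1 := IsMotivated.comb r ha (h0 X j)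
        rw [comb, add_zero] at h1
        exact h1
      refine ⟨⟨⟨⟨{c | IsMotivated W X j c}, ?_⟩, ?_⟩, ?_⟩, fun c => Iff.rfl⟩
      · intro a b ha hb
        exact hadd a b ha hb
      · exact h0 X j
      · intro r a ha
        exact hsmul r a ha
    · intro X j z hz
      exact IsMotivated.cyc hz
    · intro X i j a b ha hb
      exact IsMotivated.mul ha hb
    · intro X Y f j a ha
      exact IsMotivated.pull f ha
    · intro X Y f j l a hl ha
      exact IsMotivated.push f hl ha
    · intro X D j hD hL hj x hx hc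
      exact IsMotivated.lift hD hL hj hx hc

end Mot

variable {T : HodgeTheory ops} {X : 𝒱.Obj} {ψ : Bil T.W.K (T.W.H X)}

/-! ### Polarisations -/

lemma IsPolarisation.conv (h : IsPolarisation T X ψ) : N996.BP.IsPolarisation T X ψ where
  range p q x hx hx0 := (h.pos p q x hx hx0).1
  conj p q x hx := h.symm p q x hx
  orth p q r s x y hx hy hne := h.orth p q r s x y hx hy hne
  pos p q x hx hx0 := (h.pos p q x hx hx0).2

/-! ### Hodge classes -/

lemma expo_le (b : ℕ) : N996.BP.Geo.expo b ≤ exponent b := by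
  rw [N996.BP.Geo.expo, exponent]
  refine Nat.pow_le_pow_left (Nat.mul_le_mul_right _ ?_) _
  have h1 : 1 ≤ b.factorial := Nat.factorial_pos b
  nlinarith

lemma hodge_iff {n : ℕ} : HodgeMotivated T X n ↔
    (hodgePred (toH T)).sp (pw X n) ≤ (motPred T.W).sp (pw X n) := by
  constructor
  · intro h c hc
    refine ClassPred.sp_ind (Q := hodgePred (toH T)) (q := fun c => c ∈ (motPred T.W).sp (pw X n))
      ?_ ?_ ?_ hc
    · intro j x hx
      exact ClassPred.sp_of (Q := motPred T.W) (mot_iff.1 (h j x hx))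
    · exact Submodule.zero_mem _
    · intro a b ha hb
      exact Submodule.add_mem _ ha hb
  · intro h j c hc
    have h1 := h (ClassPred.sp_of (Q := hodgePred (toH T)) hc)
    have h2 := ClassPred.sp_proj (Q := motPred T.W) h1 j
    have h3 : c ∈ T.W.gr (pw X n) (2 * j) := (hodgePred (toH T)).gr hc
    rw [proj_same _ h3] at h2
    exact mot_iff.2 h2

/-- The Hodge classes. -/
theorem bounded_hodge (hψ : IsPolarisation T X ψ) {N : ℕ}
    (hN : N + 1 = exponent (finrank T.W.K (T.W.H X))) (h : HodgeMotivated T X N) (n : ℕ) :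
    HodgeMotivated T X n := by
  have h1 := N996.BP.Geo.bounded (T := toH T) hψ.conv.isPHS (motPred T.W).sys
    (fun Z c hc => by
      refine ClassPred.sp_ind (Q := motPred T.W) (q := fun c => c ∈ (hodgePred (toH T)).sp Z)
        ?_ ?_ ?_ hc
      · intro j x hx
        exact ClassPred.sp_of (Q := hodgePred (toH T)) (R920.MT.IsMotivated.hodge (T := toH T) hx)
      · exact Submodule.zero_mem _
      · intro a b ha hb
        exact Submodule.add_mem _ ha hb)
  have h2 : N996.BP.Geo.expo (finrank T.W.K (T.W.H X)) - 1 ≤ N := by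
    have := expo_le (finrank T.W.K (T.W.H X))
    omega
  have h3 := N996.BP.Geo.mono_pw (T := toH T) (S := (motPred T.W).sys)
    (S' := (hodgePred (toH T)).sys) h2 (hodge_iff.1 h)
  exact hodge_iff.2 (h1 h3 n)

/-! ### The Galois action -/

variable {E : Type} [Field E] [Algebra T.W.K E] {Γ : Type} [Group Γ] {χ : Γ → E}
  {ρ : ∀ n, Γ → PowH T E X n → PowH T E X n}

/-- The character. -/
noncomputable def chi (h : IsGalois (cohOps T E ψ) χ ρ) : Γ →* Eˣ :=
  MonoidHom.toHomUnits
    { toFun := χ, map_one' := h.one.1, map_mul' := fun g g' => (h.comp g g').1 }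

lemma chi_apply (h : IsGalois (cohOps T E ψ) χ ρ) (g : Γ) : (chi h g : E) = χ g := rfl

/-- The maps. -/
noncomputable def rep (h : IsGalois (cohOps T E ψ) χ ρ) (n : ℕ) :
    Representation E Γ (HL T.W E (pw X n)) where
  toFun g :=
    { toFun := fun x => (ρ n g x : PowH T E X n)
      map_add' := fun x y => h.add n g x y
      map_smul' := fun c x => h.smul n g c x }
  map_one' := LinearMap.ext fun x => h.one.2 n x
  map_mul' g g' := LinearMap.ext fun x => (h.comp g g').2 n x

lemma rep_apply (h : IsGalois (cohOps T E ψ) χ ρ) (n : ℕ) (g : Γ) (x : HL T.W E (pw X n)) :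
    rep h n g x = (ρ n g x : PowH T E X n) := rfl

/-- The conversion of the action. -/
noncomputable def toG (h : IsGalois (cohOps T E ψ) χ ρ)
    (hf : ∀ n j z, (pw X n).IsCyc j z → ∃ Δ : Subgroup Γ, Δ.FiniteIndex ∧ ∀ g ∈ Δ,
      rep h n g (emL T.W E (T.W.cl (pw X n) z)) = twL (χ g) j (emL T.W E (T.W.cl (pw X n) z))) :
    BT.GaloisAction T E Γ X where
  χ := chi h
  ρ := rep h
  mul n g x y := h.mul n g x y
  deg n g i x hx := h.deg n g i x hx
  map _ _ f hf g x := act_coord (r := fun n => rep h n g) (fun n x y => h.mul n g x y)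
    (fun n x => h.fst n g x) (fun n x => h.snd n g x) f (isCoordinateMap_iff.1 hf) x
  tr n g x := h.tr n g x
  fix n j z hz := hf n j z hz

section Final

variable {h : IsGalois (cohOps T E ψ) χ ρ}
  {hf : ∀ n j z, (pw X n).IsCyc j z → ∃ Δ : Subgroup Γ, Δ.FiniteIndex ∧ ∀ g ∈ Δ,
      rep h n g (emL T.W E (T.W.cl (pw X n) z)) = twL (χ g) j (emL T.W E (T.W.cl (pw X n) z))}

lemma nondeg_left {Y : 𝒱.Obj} {x : HL T.W E Y} (h : ∀ y : HL T.W E Y, trL (mulL x y) = 0) :
    x = 0 := (baseW T.W E).nondeg (X := Y) x h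

lemma respects : (toG h hf).Respects ψ := fun g i x y hx => h.form g i x y hx

lemma frob {f : Γ} {p : ℕ} (hF : IsFrobenius (cohOps T E ψ) χ ρ p f) :
    (toG h hf).IsFrobenius f p := by
  obtain ⟨h1, h2, h3⟩ := hF
  refine ⟨h1, h2, fun i => ?_⟩
  obtain ⟨Q, h4, h5, h6, h7⟩ := h3 i
  refine ⟨Q, h4, h5, h6, fun x hx => nondeg_left (Y := pw X 0) fun y => ?_⟩
  have h8 : Polynomial.aeval ((toG h hf).ρ 0 f) Q x =
      ∑ m ∈ Finset.range (Q.natDegree + 1), (Q.coeff m : E) • rep h 0 (f ^ m) x := by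
    rw [Polynomial.aeval_eq_sum_range, LinearMap.sum_apply]
    refine Finset.sum_congr rfl fun m _ => ?_
    rw [LinearMap.smul_apply, ← map_pow, Int.cast_smul_eq_zsmul]
    rfl
  have h9 : trL (mulL (Polynomial.aeval ((toG h hf).ρ 0 f) Q x) y) =
      ∑ m ∈ Finset.range (Q.natDegree + 1), (Q.coeff m : E) *
        trL (mulL (rep h 0 (f ^ m) x) y) := by
    rw [h8, ← BT.mulB_apply, ← BT.trB_apply, map_sum, LinearMap.sum_apply, map_sum]
    refine Finset.sum_congr rfl fun m _ => ?_
    rw [map_smul, LinearMap.smul_apply, map_smul, smul_eq_mul]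
    rfl
  exact h9.trans (h7 x y hx)

variable [TopologicalSpace Γ] [TopologicalSpace E]

lemma arith (hA : IsArithmetic (cohOps T E ψ) χ ρ) : (toG h hf).IsArithmetic where
  cont x φ := by
    obtain ⟨y, hy⟩ := exists_dual_class (X := X) (baseW T.W E) φ
    have h1 : ∀ g, φ ((toG h hf).ρ 0 g x) =
        (cohOps T E ψ).tr 0 ((cohOps T E ψ).mul 0 (ρ 0 g x) y) := fun g =>
      (hy ((toG h hf).ρ 0 g x)).symm
    rw [funext h1]
    exact hA.cont x y
  cont_χ := hA.cont_χ
  dense := hA.dense.mono fun f hF => by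
    obtain ⟨p, hp⟩ := hF
    exact ⟨p, frob hp⟩

lemma inv_closure [T2Space E] [IsTopologicalRing E] [IsTopologicalGroup Γ]
    (hA : (toG h hf).IsArithmetic) {Δ : Subgroup Γ} {n j : ℕ} {x : HL T.W E (pw X n)}
    (hinv : (toG h hf).IsInvariant Δ n j x) :
    (toG h hf).IsInvariant Δ.topologicalClosure n j x := by
  obtain ⟨G, hG⟩ : ∃ G, G = toG h hf := ⟨_, rfl⟩
  rw [← hG] at hinv hA ⊢
  intro g hg
  have h2 : ∀ φ : Module.Dual E (HL T.W E (pw X n)),
      φ (G.ρ n g x) = φ (twL (G.χ g : E) j x) := by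
    intro φ
    have h4 : IsClosed {g | φ (G.ρ n g x) = φ (twL (G.χ g : E) j x)} := by
      refine isClosed_eq (BT.cont_act hA n x φ) ?_
      have h3 : (fun g => φ (twL (G.χ g : E) j x)) = fun g => (G.χ g : E) ^ j * φ x := by
        funext g
        exact map_smul φ _ x
      rw [h3]
      exact (hA.cont_χ.pow j).mul continuous_const
    have h5 : (Δ : Set Γ) ⊆ {g | φ (G.ρ n g x) = φ (twL (G.χ g : E) j x)} :=
      fun g hg => congrArg φ (hinv g hg)
    exact closure_minimal h5 h4 hg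
  rw [← sub_eq_zero]
  refine (Module.forall_dual_apply_eq_zero_iff E _).1 fun φ => ?_
  rw [map_sub, h2, sub_self]

lemma tateIn_of [T2Space E] [IsTopologicalRing E] [IsTopologicalGroup Γ]
    (hA : (toG h hf).IsArithmetic) {n : ℕ}
    (hT : TateFrom (cohOps T E ψ) χ ρ (motClasses T E X) n) :
    BT.TateIn (toG h hf) (motPred T.W) n := by
  intro K hK j x hx hinv
  have h1 := inv_closure hA hinv
  have h2 : (K.topologicalClosure).FiniteIndex := Subgroup.finiteIndex_of_le K.le_topologicalClosure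
  have h3 : IsOpen (K.topologicalClosure : Set Γ) :=
    K.topologicalClosure.isOpen_of_isClosed_of_finiteIndex K.isClosed_topologicalClosure
  have h4 : x ∈ Submodule.span E (motClasses T E X n j) :=
    hT j x hx ⟨K.topologicalClosure, h2, h3, fun g hg => h1 g hg⟩
  refine (Submodule.span_mono ?_) h4
  rintro _ ⟨c, hc, rfl⟩
  exact ⟨c, mot_iff.1 hc, rfl⟩

lemma tateFrom_of {n : ℕ} (hT : BT.TateIn (toG h hf) (motPred T.W) n) :
    TateFrom (cohOps T E ψ) χ ρ (motClasses T E X) n := by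
  rintro j x hx ⟨Δ, hΔ, -, hinv⟩
  have h1 := hT Δ hΔ j x hx hinv
  refine (Submodule.span_mono ?_) h1
  rintro _ ⟨c, hc, rfl⟩
  exact ⟨c, mot_iff.2 hc, rfl⟩

lemma ss_iff {Δ : Subgroup Γ} {n i : ℕ} : IsSemisimple (cohOps T E ψ) ρ Δ n i ↔
    BT.IsSemisimpleOn ((toG h hf).ρ n) Δ (grL T.W E (pw X n) i) := by
  constructor
  · intro hS U hU hst
    obtain ⟨U', h1, h2, h3⟩ := hS U (fun x hx => hU hx) (fun g hg x hx => hst g hg x hx)
    have h4 : U' ≤ grL T.W E (pw X n) i := fun x hx =>
      (h3 x).2 ⟨0, U.zero_mem, x, hx, (zero_add x).symm⟩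
    refine ⟨U', h4, fun g hg x hx => h1 g hg x hx, ?_, ?_⟩
    · refine (Submodule.eq_bot_iff _).2 fun x hx => h2 x hx.1 hx.2
    · refine le_antisymm (sup_le hU h4) fun x hx => ?_
      obtain ⟨y, hy, z, hz, hxyz⟩ := (h3 x).1 hx
      exact Submodule.mem_sup.2 ⟨y, hy, z, hz, hxyz.symm⟩
  · intro hS U₀ hU hst
    obtain ⟨U, hUU⟩ : ∃ U : Submodule E (HL T.W E (pw X n)), U = U₀ := ⟨U₀, rfl⟩
    have hmem : ∀ x : HL T.W E (pw X n), x ∈ U ↔ (show PowH T E X n from x) ∈ U₀ := by
      intro x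
      rw [hUU]
      rfl
    obtain ⟨U', h1, h2, h3, h4⟩ := hS U (fun x hx => hU x ((hmem x).1 hx))
      (fun g hg x hx => (hmem _).2 (hst g hg x ((hmem x).1 hx)))
    refine ⟨U', fun g hg x hx => h2 g hg x hx, fun x hx hx' => ?_, fun x => ?_⟩
    · have h5 : (show HL T.W E (pw X n) from x) ∈ U ⊓ U' := ⟨(hmem x).2 hx, hx'⟩
      rw [h3] at h5
      exact (Submodule.mem_bot E).1 h5
    · constructor
      · intro hx
        have h5 : (show HL T.W E (pw X n) from x) ∈ U ⊔ U' := by rw [h4]; exact hx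
        obtain ⟨y, hy, z, hz, hyz⟩ := Submodule.mem_sup.1 h5
        exact ⟨y, (hmem y).1 hy, z, hz, hyz.symm⟩
      · rintro ⟨y, hy, z, hz, rfl⟩
        exact Submodule.add_mem (grL T.W E (pw X n) i) (hU y hy) (h1 hz)

/-- **The bounded power theorem for the motivated Mumford-Tate conjecture.** -/
theorem main [IsTopologicalRing E] [T2Space E] [IsTopologicalGroup Γ]
    (hψ : IsPolarisation T X ψ) (hE : Nonempty (E →+* ℂ))
    (hG : IsGalois (cohOps T E ψ) χ ρ) (hA : IsArithmetic (cohOps T E ψ) χ ρ)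
    (hM : ∀ n j, ∀ x ∈ motClasses T E X n j, IsTate (cohOps T E ψ) χ ρ j x)
    {N : ℕ} (hN : N + 1 = exponent (finrank T.W.K (T.W.H X))) :
    (HodgeMotivated T X N → ∀ n, HodgeMotivated T X n) ∧
    ((∀ j, IsSemisimple (cohOps T E ψ) ρ ⊤ N (2 * j)) →
      TateFrom (cohOps T E ψ) χ ρ (motClasses T E X) N →
      ∀ n, TateFrom (cohOps T E ψ) χ ρ (motClasses T E X) n ∧
        ∀ Δ : Subgroup Γ, Δ.FiniteIndex → ∀ i, IsSemisimple (cohOps T E ψ) ρ Δ n i) := by
  refine ⟨fun h n => bounded_hodge hψ hN h n, fun hS hT => ?_⟩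
  have hf : ∀ n j z, (pw X n).IsCyc j z → ∃ Δ : Subgroup Γ, Δ.FiniteIndex ∧ ∀ g ∈ Δ,
      rep hG n g (emL T.W E (T.W.cl (pw X n) z)) =
        twL (χ g) j (emL T.W E (T.W.cl (pw X n) z)) := by
    intro n j z hz
    obtain ⟨Δ, h1, -, h2⟩ := hM n j (emL T.W E (T.W.cl (pw X n) z))
      ⟨clc T.W z, IsMotivated.cyc hz, rfl⟩
    exact ⟨Δ, h1, fun g hg => h2 g hg⟩
  have hfix : ∀ n j c, (motPred T.W).P (pw X n) j c → ∃ Δ : Subgroup Γ, Δ.FiniteIndex ∧
      ∀ g ∈ Δ, (toG hG hf).ρ n g (emL T.W E c) =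
        twL ((toG hG hf).χ g : E) j (emL T.W E c) := by
    intro n j c hc
    obtain ⟨Δ, h1, -, h2⟩ := hM n j (emL T.W E c) ⟨c, mot_iff.2 hc, rfl⟩
    exact ⟨Δ, h1, fun g hg => h2 g hg⟩
  have hA' := arith (h := hG) (hf := hf) hA
  have hN' : BT.tateExponent (totalBetti T X) - 1 = N := by
    have h1 : BT.tateExponent (totalBetti T X) = exponent (finrank T.W.K (T.W.H X)) := rfl
    omega
  have key := BT.bounded_q (toG hG hf) (Q := motPred T.W) hψ.conv respects hA' hE
    (fun Z c hc => by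
      refine ClassPred.sp_ind (Q := motPred T.W) (q := fun c => c ∈ (hodgePred (toH T)).sp Z)
        ?_ ?_ ?_ hc
      · intro j x hx
        exact ClassPred.sp_of (Q := hodgePred (toH T)) (R920.MT.IsMotivated.hodge (T := toH T) hx)
      · exact Submodule.zero_mem _
      · intro a b ha hb
        exact Submodule.add_mem _ ha hb)
    (fun j => by rw [hN']; exact ss_iff.1 (hS j)) (by rw [hN']; exact tateIn_of hA' hT)
  intro n
  exact ⟨tateFrom_of (key.1 n), fun Δ hΔ i => ss_iff.2 (key.2 hfix n Δ hΔ i)⟩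

end Final

end Pool.Agent.N211.TP2
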